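import Mathlib

/-!
# Theorem M, block B: spread
-/

set_option autoImplicit false

namespace Pool.Agent.Helper97.M

open MvPolynomial

/-- Evaluation of a polynomial in two groups of variables in two steps. -/
theorem aeval_sum {ι κ R K Ω : Type} [CommRing R] [CommRing K] [CommRing Ω] [Algebra R K]
    [Algebra K Ω] [Algebra R Ω] [IsScalarTower R K Ω] (c : ι → K) (w : κ → Ω)
    (f : MvPolynomial (κ ⊕ ι) R) :
    aeval (Sum.elim w fun i => algebraMap K Ω (c i)) f =
      aeval w (MvPolynomial.map (aeval c).toRingHom (sumAlgEquiv R κ ι f)) := by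
  induction f using MvPolynomial.induction_on with
  | C a =>
    rw [sumAlgEquiv_C_inl]
    simp [IsScalarTower.algebraMap_apply R K Ω]
  | add p q hp hq => rw [map_add, map_add, map_add, map_add, hp, hq]
  | mul_X p j hp =>
    rw [map_mul, map_mul, map_mul, map_mul, hp]
    congr 1
    cases j with
    | inl j => rw [sumAlgEquiv_X_inl]; simp
    | inr j => rw [sumAlgEquiv_X_inr]; simp

/-- If the equations `G` never hold at points with `(c, w)` independent over `ℚ`, then for general
`c` over any field they never hold at points with `w` independent over that field. -/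
theorem spread {ι κ ν : Type} (G : Set (MvPolynomial (ι ⊕ (κ ⊕ ν)) ℚ))
    (h : ∀ (Ω : Type) [Field Ω] [CharZero Ω] (c : ι → Ω) (w : κ → Ω) (v : ν → Ω),
      (∀ g ∈ G, aeval (Sum.elim c (Sum.elim w v)) g = 0) →
        ¬ AlgebraicIndependent ℚ (Sum.elim c w)) :
    ∃ Δ : MvPolynomial ι ℚ, Δ ≠ 0 ∧ ∀ (K : Type) [Field K] [CharZero K] (c : ι → K),
      aeval c Δ ≠ 0 → ∀ (Ω : Type) [Field Ω] [CharZero Ω] [Algebra K Ω] (w : κ → Ω) (v : ν → Ω),
        AlgebraicIndependent K w →
          ¬ ∀ g ∈ G, aeval (Sum.elim (fun i => algebraMap K Ω (c i)) (Sum.elim w v)) g = 0 := by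
  classical
  -- the embedding of the polynomials in `(c, w)`
  let e : κ ⊕ ι → ι ⊕ (κ ⊕ ν) := Sum.elim (fun j => Sum.inr (Sum.inl j)) Sum.inl
  have he : Function.Injective e := by
    rintro (a | a) (b | b) hab
    · simpa [e] using hab
    · simp [e] at hab
    · simp [e] at hab
    · simpa [e] using hab
  have key : ∃ f : MvPolynomial (κ ⊕ ι) ℚ, f ≠ 0 ∧ rename e f ∈ Ideal.span G := by
    by_contra hcon
    push Not at hcon
    let S : Submonoid (MvPolynomial (ι ⊕ (κ ⊕ ν)) ℚ) :=
      (nonZeroDivisors (MvPolynomial (κ ⊕ ι) ℚ)).map (rename e : _ →ₐ[ℚ] _)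
    have hdis : Disjoint ((Ideal.span G : Ideal _) : Set (MvPolynomial (ι ⊕ (κ ⊕ ν)) ℚ))
        (S : Set _) := by
      rw [Set.disjoint_left]
      rintro _ hI ⟨f, hf, rfl⟩
      exact hcon f (nonZeroDivisors.ne_zero hf) hI
    obtain ⟨P, hP, hGP, hPS⟩ := Ideal.exists_le_prime_disjoint (Ideal.span G) S hdis
    let Q := MvPolynomial (ι ⊕ (κ ⊕ ν)) ℚ ⧸ P
    let Ω := FractionRing Q
    have : CharZero Ω := algebraRat.charZero Ω
    let π : MvPolynomial (ι ⊕ (κ ⊕ ν)) ℚ →ₐ[ℚ] Ω :=
      (IsScalarTower.toAlgHom ℚ Q Ω).comp (Ideal.Quotient.mkₐ ℚ P)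
    have hπ : ∀ g, π g = 0 ↔ g ∈ P := by
      intro g
      have : π g = algebraMap Q Ω (Ideal.Quotient.mk P g) := rfl
      rw [this, map_eq_zero_iff _ (IsFractionRing.injective Q Ω), Ideal.Quotient.eq_zero_iff_mem]
    have hpt : ∀ g : MvPolynomial (ι ⊕ (κ ⊕ ν)) ℚ,
        aeval (Sum.elim (fun i => π (X (Sum.inl i))) (Sum.elim (fun j => π (X (Sum.inr (Sum.inl j))))
          fun j => π (X (Sum.inr (Sum.inr j))))) g = π g := by
      intro g
      have : aeval (Sum.elim (fun i => π (X (Sum.inl i)))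
          (Sum.elim (fun j => π (X (Sum.inr (Sum.inl j))))
          fun j => π (X (Sum.inr (Sum.inr j))))) = π := by
        apply MvPolynomial.algHom_ext
        rintro (i | j | j) <;> simp
      rw [this]
    refine h Ω (fun i => π (X (Sum.inl i))) (fun j => π (X (Sum.inr (Sum.inl j))))
      (fun j => π (X (Sum.inr (Sum.inr j)))) ?_ ?_
    · intro g hg
      rw [hpt, hπ]
      exact hGP (Ideal.subset_span hg)
    · rw [AlgebraicIndependent, injective_iff_map_eq_zero]
      intro f hf
      by_contra hf0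
      let s : ι ⊕ κ → κ ⊕ ι := Sum.swap
      have h1 : aeval (Sum.elim (fun i => π (X (Sum.inl i)))
          fun j => π (X (Sum.inr (Sum.inl j)))) f = π (rename e (rename s f)) := by
        rw [← hpt, aeval_rename, aeval_rename]
        congr 2
        funext x
        rcases x with i | j <;> rfl
      rw [h1, hπ] at hf
      have h2 : rename s f ≠ 0 := fun h0 => hf0
        (rename_injective s Sum.swap_leftInverse.injective (by rw [h0, map_zero]))
      exact Set.disjoint_left.mp hPS hf ⟨_, mem_nonZeroDivisors_of_ne_zero h2, rfl⟩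
  obtain ⟨f, hf0, hf⟩ := key
  have hF : sumAlgEquiv ℚ κ ι f ≠ 0 := by
    rwa [Ne, EmbeddingLike.map_eq_zero_iff]
  obtain ⟨m, hm⟩ := MvPolynomial.ne_zero_iff.mp hF
  refine ⟨coeff m (sumAlgEquiv ℚ κ ι f), hm, ?_⟩
  intro K _ _ c hc Ω _ _ _ w v hw hG
  have hz : ∀ g ∈ Ideal.span G,
      aeval (Sum.elim (fun i => algebraMap K Ω (c i)) (Sum.elim w v)) g = 0 := by
    intro g hg
    have hle : Ideal.span G ≤ RingHom.ker (aeval (R := ℚ)
        (Sum.elim (fun i => algebraMap K Ω (c i)) (Sum.elim w v))).toRingHom := by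
      rw [Ideal.span_le]
      intro g hg
      exact hG g hg
    exact hle hg
  have h1 := hz _ hf
  rw [aeval_rename] at h1
  have h2 : (Sum.elim (fun i => algebraMap K Ω (c i)) (Sum.elim w v)) ∘ e =
      Sum.elim w fun i => algebraMap K Ω (c i) := by
    funext x
    rcases x with i | j <;> rfl
  have : IsScalarTower ℚ K Ω := IsScalarTower.of_algebraMap_eq fun q => by
    simp
  rw [h2, aeval_sum c w f] at h1
  have h3 := (injective_iff_map_eq_zero _).mp hw _ h1
  have h4 := congrArg (coeff m) h3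
  rw [coeff_map, coeff_zero] at h4
  exact hc h4

end Pool.Agent.Helper97.M
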