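import Mathlib
import Pool.Agent.Helper16.CY.Elim

/-!
# Theorem M: general lemmas (adjoin_inf, dep_of_coprime)
-/

set_option autoImplicit false

namespace Pool.Agent.Helper97.M

open MvPolynomial

theorem adjoin_inf {K E ι : Type} [Field K] [Field E] [Algebra K E] (v : ι → E)
    (hv : AlgebraicIndependent K v) (A B : Set ι) (y : E)
    (hA : y ∈ IntermediateField.adjoin K (v '' A)) (hB : y ∈ IntermediateField.adjoin K (v '' B)) :
    y ∈ IntermediateField.adjoin K (v '' (A ∩ B)) := by
  classical
  let F : IntermediateField K E := IntermediateField.adjoin K (v '' (A ∩ B))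
  let L : IntermediateField K E := IntermediateField.adjoin K (v '' B)
  have hFL : F ≤ L := IntermediateField.adjoin.mono _ _ _ (Set.image_mono Set.inter_subset_right)
  let C' : Set ι := A \ B
  have hind : AlgebraicIndependent L (fun i : C' => v i) := by
    rw [IntermediateField.algebraicIndependent_adjoin_iff]
    exact hv.adjoin_of_disjoint Set.disjoint_sdiff_right
  have hyA : y ∈ IntermediateField.adjoin F (Set.range fun i : C' => v i) := by
    have h1 : (IntermediateField.adjoin F (Set.range fun i : C' => v i)).restrictScalars K =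
        IntermediateField.adjoin K (v '' (A ∩ B) ∪ Set.range fun i : C' => v i) :=
      IntermediateField.adjoin_adjoin_left K _ _
    rw [← IntermediateField.mem_restrictScalars K, h1]
    refine IntermediateField.adjoin.mono _ _ _ ?_ hA
    rintro _ ⟨i, hi, rfl⟩
    by_cases hb : i ∈ B
    · exact Or.inl ⟨i, ⟨hi, hb⟩, rfl⟩
    · exact Or.inr ⟨⟨i, hi, hb⟩, rfl⟩
  rw [IntermediateField.mem_adjoin_range_iff] at hyA
  obtain ⟨P, Q, hPQ⟩ := hyA
  by_cases hQ : aeval (fun i : C' => v i) Q = 0
  · rw [hPQ, hQ, div_zero]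
    exact zero_mem _
  have hQ0 : Q ≠ 0 := fun h => hQ (by rw [h, map_zero])
  obtain ⟨m, hm⟩ := MvPolynomial.ne_zero_iff.mp hQ0
  let f : F →+* L := (IntermediateField.inclusion hFL : F →+* L)
  have hf : ∀ c : F, ((f c : L) : E) = (c : E) := fun c => rfl
  have hev : ∀ R : MvPolynomial C' F, aeval (fun i : C' => v i) (MvPolynomial.map f R) =
      aeval (fun i : C' => v i) R := by
    intro R
    rw [aeval_def, aeval_def, eval₂_map]
    rfl
  let y' : L := ⟨y, hB⟩
  have hrel : aeval (fun i : C' => v i) (C y' * MvPolynomial.map f Q - MvPolynomial.map f P) =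
      0 := by
    have h2 : algebraMap L E y' = aeval (fun i : C' => v i) P / aeval (fun i : C' => v i) Q := hPQ
    rw [map_sub, map_mul, hev, hev, aeval_C, h2, div_mul_cancel₀ _ hQ, sub_self]
  have hz := (injective_iff_map_eq_zero _).mp hind _ hrel
  have hc := congrArg (MvPolynomial.coeff m) (sub_eq_zero.mp hz)
  rw [coeff_C_mul, coeff_map, coeff_map] at hc
  have hc' : y * ((coeff m Q : F) : E) = ((coeff m P : F) : E) := by
    exact congrArg (fun z : L => (z : E)) hc
  have hm' : ((coeff m Q : F) : E) ≠ 0 := by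
    intro h
    exact hm (by exact_mod_cast h)
  rw [eq_div_of_mul_eq hm' hc']
  exact div_mem (coeff m P).2 (coeff m Q).2

/-- Two coprime polynomials in `n` variables: the common zeros have small degree. -/
theorem dep_of_coprime {M Ω : Type} [Field M] [Field Ω] [Algebra M Ω] {n : ℕ}
    (p q : MvPolynomial (Fin n) M) (hpq : IsRelPrime p q) (z : Fin n → Ω) (hp : aeval z p = 0)
    (hq : aeval z q = 0) (i : Fin n) :
    ¬ AlgebraicIndependent M (fun j : {j : Fin n // j ≠ i} => z j) := by
  intro hind
  obtain ⟨r, hr, hz⟩ := Pool.Agent.Helper16.CY.exists_elim.{0, 0, 0} i hpq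
  exact hr ((injective_iff_map_eq_zero _).mp hind r (hz Ω z hp hq))

end Pool.Agent.Helper97.M
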