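import Mathlib
import Pool.Agent.Helper47.M.Defs
import Pool.Agent.Helper97.M.Gen

/-!
# Theorem M: intersections of the fields `Bf`
-/

set_option autoImplicit false

namespace Pool.Agent.Helper97.M

open MvPolynomial Pool.Agent.Helper47.M

variable {k l : ℕ} {N : Fin k → ℕ} {d : Fin l → Fin k → ℕ}
variable {K E : Type} [Field K] [Field E] [Algebra K E]

/-- The field `Bf K x J` in terms of the independent coordinates. -/
theorem bf_eq (x : Pt N E) (h1 : ∀ j, x j 0 = 1) (r : Fin k) (J : Set (Fin k)) (h : r ∈ J) :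
    Bf K x J = IntermediateField.adjoin K
      ((fun q : {q : Vr N // q.1 ≠ r} => x q.1.1 q.1.2.succ) ''
        {q : {q : Vr N // q.1 ≠ r} | q.1.1 ∉ J}) := by
  apply le_antisymm
  · unfold Bf
    rw [IntermediateField.adjoin_le_iff]
    rintro _ ⟨j, hj, e, rfl⟩
    refine Fin.cases ?_ (fun e' => ?_) e
    · rw [h1 j]
      exact one_mem _
    · refine IntermediateField.subset_adjoin K _ ⟨⟨⟨j, e'⟩, ?_⟩, hj, rfl⟩
      rintro rfl
      exact hj h
  · refine IntermediateField.adjoin.mono _ _ _ ?_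
    rintro _ ⟨q, hq, rfl⟩
    exact ⟨q.1.1, hq, q.1.2.succ, rfl⟩

theorem bf_inf (c : Tx N d → K) (x : Pt N E) (hx : FullPt K c x) (r : Fin k) (J J' : Set (Fin k))
    (h : r ∈ J) (h' : r ∈ J') (y : E) (h1 : y ∈ Bf K x J) (h2 : y ∈ Bf K x J') :
    y ∈ Bf K x (J ∪ J') := by
  rw [bf_eq x hx.one r J h] at h1
  rw [bf_eq x hx.one r J' h'] at h2
  rw [bf_eq x hx.one r (J ∪ J') (Or.inl h)]
  have h3 := adjoin_inf _ (hx.ind r) _ _ y h1 h2
  refine IntermediateField.adjoin.mono _ _ _ ?_ h3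
  apply Set.image_mono
  rintro q ⟨ha, hb⟩
  rintro (hc | hc)
  · exact ha hc
  · exact hb hc

end Pool.Agent.Helper97.M
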